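import Pool.Agent.Helper12.GM.Lib

/-!
# The killed Ancona inequality
-/

open scoped ENNReal Topology
open Real Filter

namespace Pool.Agent.Helper12.GM

section KA

variable {Γ : Type} [Group Γ]

/-- the constant valid at scale `(a, b)` -/
def KA_P (Q : Geo Γ) (μ : PMF Γ) (Ω : Set Γ) (z : Γ) (Y Z : Set Γ) (a b κ : ℝ) : Prop :=
  ∀ u ∈ Y, ∀ v ∈ Z, Q.d z u ≤ a → Q.d z v ≤ b →
    Gr μ Ω u v ≤ ENNReal.ofReal κ * (Gr μ Ω u z * Gr μ Ω z v)

/-- the error of AVOID at scale `l` -/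
noncomputable def KA_E (Q : Geo Γ) (K C₀ l : ℝ) : ℝ :=
  3 * (1 + K) * Real.exp (-(2 : ℝ) ^ ((l / 20 - (Q.C + C₀) - K) / Q.C - 1) / K)

/-- a double exponential beats an exponential -/
lemma KA_lim (C K b B : ℝ) (hC : 0 < C) (hK : 0 < K) :
    Tendsto (fun l : ℝ => Real.exp (-(2 : ℝ) ^ ((l / 20 - b - K) / C - 1) / K) *
      Real.exp (B * l)) atTop (𝓝 0) := by
  have hlog : 0 < Real.log 2 := Real.log_pos (by norm_num)
  have ha : 0 < Real.log 2 / (20 * C) := by positivity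
  have h1 : Tendsto (fun l : ℝ => Real.exp ((Real.log 2 / (20 * C)) * l) /
      ((Real.log 2 / (20 * C)) * l) ^ 1) atTop atTop :=
    (Real.tendsto_exp_div_pow_atTop 1).comp (tendsto_id.const_mul_atTop ha)
  have h2 : Tendsto (fun l : ℝ => (Real.log 2 / (20 * C) * (2 : ℝ) ^ (-((b + K) / C + 1)) / K) *
      (Real.exp ((Real.log 2 / (20 * C)) * l) / ((Real.log 2 / (20 * C)) * l) ^ 1)) atTop atTop :=
    h1.const_mul_atTop (by positivity)
  have h3 : Tendsto (fun l : ℝ => l * ((Real.log 2 / (20 * C) * (2 : ℝ) ^ (-((b + K) / C + 1)) / K) *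
      (Real.exp ((Real.log 2 / (20 * C)) * l) / ((Real.log 2 / (20 * C)) * l) ^ 1) + (-B)))
      atTop atTop :=
    tendsto_id.atTop_mul_atTop₀ (tendsto_atTop_add_const_right _ _ h2)
  have h4 := Real.tendsto_exp_neg_atTop_nhds_zero.comp h3
  refine h4.congr' ?_
  filter_upwards [eventually_gt_atTop (0 : ℝ)] with l hl
  simp only [Function.comp_apply]
  rw [← Real.exp_add]
  congr 1
  have h5 : (2 : ℝ) ^ ((l / 20 - b - K) / C - 1) =
      (2 : ℝ) ^ (-((b + K) / C + 1)) * Real.exp ((Real.log 2 / (20 * C)) * l) := by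
    have h6 : Real.exp ((Real.log 2 / (20 * C)) * l) = (2 : ℝ) ^ (l / (20 * C)) := by
      rw [Real.rpow_def_of_pos (by norm_num)]
      congr 1
      ring
    rw [h6, ← Real.rpow_add (by norm_num)]
    congr 1
    field_simp
    ring
  rw [h5, pow_one]
  field_simp
  ring

/-- choice of the first scale -/
lemma KA_scale (Q : Geo Γ) (K C₀ c C₁ l₁ : ℝ) (hK : 1 ≤ K) (hc : 0 < c) : ∃ l₀ : ℝ,
    3 ≤ l₀ ∧ l₁ ≤ l₀ ∧ 10 * (Q.C + |C₀|) < l₀ ∧ ∀ l, l₀ ≤ l →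
      KA_E Q K C₀ l ≤ Real.exp (-l) * (c * c * Real.exp (-(2 * C₁ * (4 * l / 3)))) := by
  have hC := Q.one_le_C
  have hCpos : 0 < Q.C := by linarith
  have hKpos : 0 < K := by linarith
  have key := (KA_lim Q.C K (Q.C + C₀) (1 + 8 * C₁ / 3) hCpos hKpos).const_mul (3 * (1 + K))
  rw [mul_zero] at key
  have h2 := (tendsto_order.1 key).2 (c * c) (by positivity)
  obtain ⟨l2, hl2⟩ := eventually_atTop.1 h2
  refine ⟨max 3 (max l₁ (max (10 * (Q.C + |C₀|) + 1) l2)), le_max_left _ _,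
    (le_max_left _ _).trans (le_max_right _ _), ?_, ?_⟩
  · have : 10 * (Q.C + |C₀|) + 1 ≤ max 3 (max l₁ (max (10 * (Q.C + |C₀|) + 1) l2)) :=
      (le_max_left _ _).trans ((le_max_right _ _).trans (le_max_right _ _))
    linarith
  · intro l hl
    have h3 : l2 ≤ l := ((le_max_right _ _).trans ((le_max_right _ _).trans (le_max_right _ _))).trans hl
    have h4 := (hl2 l h3).le
    unfold KA_E
    have h5 : Real.exp (-l) * (c * c * Real.exp (-(2 * C₁ * (4 * l / 3)))) =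
        c * c * Real.exp (-((1 + 8 * C₁ / 3) * l)) := by
      rw [mul_left_comm, ← Real.exp_add]
      congr 2
      ring
    rw [h5]
    have h6 : Real.exp ((1 + 8 * C₁ / 3) * l) * Real.exp (-((1 + 8 * C₁ / 3) * l)) = 1 := by
      rw [← Real.exp_add]; simp
    have h7 := mul_le_mul_of_nonneg_right h4 (Real.exp_pos (-((1 + 8 * C₁ / 3) * l))).le
    have h8 : ∀ a b e f : ℝ, e * f = 1 → a * (b * e) * f = a * b := by
      intro a b e f h
      calc a * (b * e) * f = a * b * (e * f) := by ring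
        _ = a * b := by rw [h, mul_one]
    rw [h8 _ _ _ _ h6] at h7
    exact h7

/-- everything that is fixed during the induction -/
structure KA_D (Q : Geo Γ) (μ : PMF Γ) (K C₀ c C₁ l₀ : ℝ) (Ω : Set Γ) (z : Γ) (Y Z : Set Γ) :
    Prop where
  wk : Wk Q μ K
  hc : 0 < c
  hC1 : 0 ≤ C₁
  l3 : 3 ≤ l₀
  lC : 10 * (Q.C + |C₀|) < l₀
  err : ∀ l, l₀ ≤ l → KA_E Q K C₀ l ≤ Real.exp (-l) * (c * c * Real.exp (-(2 * C₁ * (4 * l / 3))))
  gp : ∀ u ∈ Y, ∀ v ∈ Z, Q.gp u v z ≤ C₀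
  sY : Stab Q Ω z Y l₀
  sZ : Stab Q Ω z Z l₀
  low : ∀ u ∈ Y, ∀ v ∈ Z, Gr μ Ω u v ≠ 0 →
      ENNReal.ofReal (c * Real.exp (-C₁ * Q.d z u)) ≤ Gr μ Ω u z ∧
      ENNReal.ofReal (c * Real.exp (-C₁ * Q.d z v)) ≤ Gr μ Ω z v

variable {Q : Geo Γ} {μ : PMF Γ} {K C₀ c C₁ l₀ : ℝ} {Ω : Set Γ} {z : Γ} {Y Z : Set Γ}

lemma KA_low (D : KA_D Q μ K C₀ c C₁ l₀ Ω z Y Z) {u v : Γ} (hu : u ∈ Y) (hv : v ∈ Z)
    (h : Gr μ Ω u v ≠ 0) (m : ℝ) (h1 : Q.d z u ≤ m) (h2 : Q.d z v ≤ m) :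
    ENNReal.ofReal (c * c * Real.exp (-(2 * C₁ * m))) ≤ Gr μ Ω u z * Gr μ Ω z v := by
  obtain ⟨h3, h4⟩ := D.low u hu v hv h
  have hc := D.hc
  have h5 : ∀ t : ℝ, t ≤ m → c * Real.exp (-C₁ * m) ≤ c * Real.exp (-C₁ * t) := by
    intro t ht
    refine mul_le_mul_of_nonneg_left (Real.exp_le_exp.2 ?_) hc.le
    have := mul_le_mul_of_nonneg_left ht D.hC1
    linarith
  have h6 : c * c * Real.exp (-(2 * C₁ * m)) = (c * Real.exp (-C₁ * m)) * (c * Real.exp (-C₁ * m)) := by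
    rw [mul_mul_mul_comm, ← Real.exp_add]
    congr 2
    ring
  rw [h6, ENNReal.ofReal_mul (by positivity)]
  exact mul_le_mul' ((ENNReal.ofReal_le_ofReal (h5 _ h1)).trans h3)
    ((ENNReal.ofReal_le_ofReal (h5 _ h2)).trans h4)

/-- the error term is absorbed -/
lemma KA_abs (D : KA_D Q μ K C₀ c C₁ l₀ Ω z Y Z) {l κ : ℝ} (hl : l₀ ≤ l) (hκ : 0 ≤ κ) {u v : Γ}
    (hu : u ∈ Y) (hv : v ∈ Z) (h1 : Q.d z u ≤ 4 * l / 3) (h2 : Q.d z v ≤ 4 * l / 3)
    (h : Gr μ Ω u v ≤ ENNReal.ofReal (KA_E Q K C₀ l) +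
      ENNReal.ofReal κ * (Gr μ Ω u z * Gr μ Ω z v)) :
    Gr μ Ω u v ≤ ENNReal.ofReal (κ + Real.exp (-l)) * (Gr μ Ω u z * Gr μ Ω z v) := by
  by_cases h0 : Gr μ Ω u v = 0
  · rw [h0]; exact zero_le
  have h3 := KA_low D hu hv h0 _ h1 h2
  have h4 : ENNReal.ofReal (KA_E Q K C₀ l) ≤
      ENNReal.ofReal (Real.exp (-l)) * (Gr μ Ω u z * Gr μ Ω z v) := by
    refine (ENNReal.ofReal_le_ofReal (D.err l hl)).trans ?_
    rw [ENNReal.ofReal_mul (Real.exp_pos _).le]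
    gcongr
  rw [ENNReal.ofReal_add hκ (Real.exp_pos _).le, add_mul, add_comm]
  refine h.trans ?_
  gcongr

lemma KA_mono {a b κ κ' : ℝ} (h : κ ≤ κ') (hP : KA_P Q μ Ω z Y Z a b κ) :
    KA_P Q μ Ω z Y Z a b κ' := by
  intro u hu v hv h1 h2
  refine (hP u hu v hv h1 h2).trans ?_
  gcongr

/-- geometric facts on the ball around the geodesic point at depth `2l/3` -/
lemma KA_geo (D : KA_D Q μ K C₀ c C₁ l₀ Ω z Y Z) {l : ℝ} (hl : l₀ ≤ l) {w v p : Γ}
    (hg : Q.gp w v z ≤ C₀)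
    (hw : l < Q.d z w) (h1 : Q.d z p ≤ 2 * l / 3 + Q.C)
    (h2 : Q.d p w ≤ Q.d z w - 2 * l / 3 + Q.C) :
    Q.gp w v p ≤ Q.C + C₀ ∧ l / 20 < Q.d p w ∧ l / 20 < Q.d p v ∧ l / 20 < Q.d p z ∧
      ∀ u, Q.d p u ≤ l / 20 → Q.d z u ≤ l := by
  have hC := Q.one_le_C
  have h10 := D.lC
  have h3 := D.l3
  have hab := abs_nonneg C₀
  have hab2 := le_abs_self C₀
  have hlC : 10 * Q.C + 10 * |C₀| < l := by linarith
  unfold Geo.gp at hg ⊢
  have t1 := Q.d_tri z p w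
  have t2 := Q.d_tri p z v
  have t3 := Q.d_comm z p
  have t4 := Q.d_tri w p v
  have t5 := Q.d_comm w p
  have n1 := Q.d_nonneg z v
  refine ⟨by linarith, by linarith, by linarith, by linarith, ?_⟩
  intro u hu
  have t6 := Q.d_tri z p u
  linarith

/-- enlarging the left scale -/
lemma KA_stepY (havoid : ST_AVOID) (D : KA_D Q μ K C₀ c C₁ l₀ Ω z Y Z) {l κ : ℝ} (hl : l₀ ≤ l)
    (hκ : 0 ≤ κ) (hP : KA_P Q μ Ω z Y Z l l κ) :
    KA_P Q μ Ω z Y Z (4 * l / 3) l (κ + Real.exp (-l)) := by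
  intro w hw v hv h1 h2
  have hlpos : 0 < l := by have := D.l3; linarith
  by_cases hwl : Q.d z w ≤ l
  · exact KA_mono (by have := Real.exp_pos (-l); linarith) hP w hw v hv hwl h2
  rw [not_le] at hwl
  obtain ⟨p, hp1, hp2⟩ := Q.d_geod z w (2 * l / 3) (by linarith) (by linarith)
  obtain ⟨g1, g2, g3, g4, g5⟩ := KA_geo D hl (D.gp w hw v hv) hwl hp1 hp2
  have hY : ∀ u ∈ Ω, Q.d p u ≤ l / 20 → u ∈ Y := D.sY l hl w hw hwl h1 p hp1 hp2
  set A : Set Γ := {x | Q.d p x ≤ l / 20} with hA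
  refine KA_abs D hl hκ hw hv h1 (h2.trans (by linarith)) ?_
  rw [Gr_res1 μ Ω A w v]
  refine add_le_add ?_ ?_
  · refine (Gr_mono μ (Ω' := {x | l / 20 < Q.d p x}) ?_ w v).trans
      (havoid Q μ K D.wk w v p (Q.C + C₀) (l / 20) g1 g2)
    intro x hx
    have hx2 : ¬ Q.d p x ≤ l / 20 := hx.2
    exact not_le.1 hx2
  · calc ∑' u, Set.indicator (A ∩ Ω) (fun u => Gr μ (Ω \ A) w u *
          ∑' s, μ s * Gr μ Ω (u * s) v) u
        ≤ ∑' u, (ENNReal.ofReal κ * Gr μ Ω z v) * Set.indicator (A ∩ Ω)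
            (fun u => Gr μ (Ω \ A) w u * ∑' s, μ s * Gr μ Ω (u * s) z) u := by
          refine ENNReal.tsum_le_tsum fun u => ?_
          by_cases hu : u ∈ A ∩ Ω
          · rw [Set.indicator_of_mem hu, Set.indicator_of_mem hu]
            have hne : u ≠ z := by
              rintro rfl
              exact absurd hu.1 (not_le.2 g4)
            rw [Gr_mem_ne μ hu.2 hne]
            have e1 := (Gr_mem_le μ v hu.2).trans
              (hP u (hY u hu.2 hu.1) v hv (g5 u hu.1) h2)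
            calc Gr μ (Ω \ A) w u * ∑' s, μ s * Gr μ Ω (u * s) v
                ≤ Gr μ (Ω \ A) w u * (ENNReal.ofReal κ * (Gr μ Ω u z * Gr μ Ω z v)) := by
                  gcongr
              _ = (ENNReal.ofReal κ * Gr μ Ω z v) * (Gr μ (Ω \ A) w u * Gr μ Ω u z) := by ring
          · rw [Set.indicator_of_notMem hu, Set.indicator_of_notMem hu]
            exact zero_le
      _ = (ENNReal.ofReal κ * Gr μ Ω z v) * ∑' u, Set.indicator (A ∩ Ω)
            (fun u => Gr μ (Ω \ A) w u * ∑' s, μ s * Gr μ Ω (u * s) z) u :=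
          ENNReal.tsum_mul_left
      _ ≤ (ENNReal.ofReal κ * Gr μ Ω z v) * Gr μ Ω w z := by
          gcongr
          rw [Gr_res1 μ Ω A w z]
          exact le_add_self
      _ = ENNReal.ofReal κ * (Gr μ Ω w z * Gr μ Ω z v) := by ring

/-- enlarging the right scale -/
lemma KA_stepZ (havoid : ST_AVOID) (D : KA_D Q μ K C₀ c C₁ l₀ Ω z Y Z) {l κ : ℝ} (hl : l₀ ≤ l)
    (hκ : 0 ≤ κ) (hP : KA_P Q μ Ω z Y Z (4 * l / 3) l κ) :
    KA_P Q μ Ω z Y Z (4 * l / 3) (4 * l / 3) (κ + Real.exp (-l)) := by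
  intro w hw v hv h1 h2
  have hlpos : 0 < l := by have := D.l3; linarith
  by_cases hvl : Q.d z v ≤ l
  · exact KA_mono (by have := Real.exp_pos (-l); linarith) hP w hw v hv h1 hvl
  rw [not_le] at hvl
  obtain ⟨p, hp1, hp2⟩ := Q.d_geod z v (2 * l / 3) (by linarith) (by linarith)
  have hg := D.gp w hw v hv
  rw [Q.gp_comm] at hg
  obtain ⟨g1, g2, g3, g4, g5⟩ := KA_geo D hl hg hvl hp1 hp2
  rw [Q.gp_comm] at g1
  have hZ : ∀ u ∈ Ω, Q.d p u ≤ l / 20 → u ∈ Z := D.sZ l hl v hv hvl h2 p hp1 hp2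
  set A : Set Γ := {x | Q.d p x ≤ l / 20} with hA
  refine KA_abs D hl hκ hw hv h1 h2 ?_
  rw [Gr_res2 μ Ω A w v]
  refine add_le_add ?_ ?_
  · refine (Gr_mono μ (Ω' := {x | l / 20 < Q.d p x}) ?_ w v).trans
      (havoid Q μ K D.wk w v p (Q.C + C₀) (l / 20) g1 g3)
    intro x hx
    have hx2 : ¬ Q.d p x ≤ l / 20 := hx.2
    exact not_le.1 hx2
  · calc ∑' u, Set.indicator (A ∩ Ω) (fun u => Gr μ Ω w u *
          ∑' s, μ s * Gr μ (Ω \ A) (u * s) v) u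
        ≤ ∑' u, (ENNReal.ofReal κ * Gr μ Ω w z) * Set.indicator (A ∩ Ω)
            (fun u => Gr μ Ω z u * ∑' s, μ s * Gr μ (Ω \ A) (u * s) v) u := by
          refine ENNReal.tsum_le_tsum fun u => ?_
          by_cases hu : u ∈ A ∩ Ω
          · rw [Set.indicator_of_mem hu, Set.indicator_of_mem hu]
            have e1 := hP w hw u (hZ u hu.2 hu.1) h1 (g5 u hu.1)
            calc Gr μ Ω w u * ∑' s, μ s * Gr μ (Ω \ A) (u * s) v
                ≤ (ENNReal.ofReal κ * (Gr μ Ω w z * Gr μ Ω z u)) *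
                  ∑' s, μ s * Gr μ (Ω \ A) (u * s) v := by
                  gcongr
              _ = (ENNReal.ofReal κ * Gr μ Ω w z) *
                  (Gr μ Ω z u * ∑' s, μ s * Gr μ (Ω \ A) (u * s) v) := by ring
          · rw [Set.indicator_of_notMem hu, Set.indicator_of_notMem hu]
            exact zero_le
      _ = (ENNReal.ofReal κ * Gr μ Ω w z) * ∑' u, Set.indicator (A ∩ Ω)
            (fun u => Gr μ Ω z u * ∑' s, μ s * Gr μ (Ω \ A) (u * s) v) u :=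
          ENNReal.tsum_mul_left
      _ ≤ (ENNReal.ofReal κ * Gr μ Ω w z) * Gr μ Ω z v := by
          gcongr
          rw [Gr_res2 μ Ω A z v]
          exact le_add_self
      _ = ENNReal.ofReal κ * (Gr μ Ω w z * Gr μ Ω z v) := by ring

/-- the first scale -/
lemma KA_base (D : KA_D Q μ K C₀ c C₁ l₀ Ω z Y Z) :
    KA_P Q μ Ω z Y Z l₀ l₀ ((1 + K) / (c * c) * Real.exp (2 * C₁ * l₀)) := by
  intro u hu v hv h1 h2
  by_cases h0 : Gr μ Ω u v = 0
  · rw [h0]; exact zero_le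
  have hc := D.hc
  have hK := D.wk.one_le
  have h3 := KA_low D hu hv h0 _ h1 h2
  refine (Gr_le_G0 μ Ω u v).trans (D.wk.G0_le.trans ?_)
  have h4 : 1 + K = ((1 + K) / (c * c) * Real.exp (2 * C₁ * l₀)) *
      (c * c * Real.exp (-(2 * C₁ * l₀))) := by
    rw [mul_mul_mul_comm, ← Real.exp_add, add_neg_cancel, Real.exp_zero, mul_one,
      div_mul_cancel₀ _ (by positivity)]
  calc ENNReal.ofReal (1 + K) = ENNReal.ofReal (((1 + K) / (c * c) * Real.exp (2 * C₁ * l₀)) *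
        (c * c * Real.exp (-(2 * C₁ * l₀)))) := by rw [← h4]
    _ = ENNReal.ofReal ((1 + K) / (c * c) * Real.exp (2 * C₁ * l₀)) *
        ENNReal.ofReal (c * c * Real.exp (-(2 * C₁ * l₀))) :=
        ENNReal.ofReal_mul (by positivity)
    _ ≤ _ := by gcongr

lemma KA_all (havoid : ST_AVOID) (D : KA_D Q μ K C₀ c C₁ l₀ Ω z Y Z) (j : ℕ) :
    l₀ + j ≤ l₀ * (4 / 3) ^ j ∧
    KA_P Q μ Ω z Y Z (l₀ * (4 / 3) ^ j) (l₀ * (4 / 3) ^ j)
      ((1 + K) / (c * c) * Real.exp (2 * C₁ * l₀) + 2 * (1 - (1 / 2) ^ j)) := by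
  have hc := D.hc
  have hK := D.wk.one_le
  have hl3 := D.l3
  have hB : 0 ≤ (1 + K) / (c * c) * Real.exp (2 * C₁ * l₀) := by positivity
  induction j with
  | zero =>
    constructor
    · simp
    · have := KA_base D
      simpa using this
  | succ j ih =>
    obtain ⟨h1, h2⟩ := ih
    have hj0 : (0 : ℝ) ≤ j := Nat.cast_nonneg j
    have hll : l₀ ≤ l₀ * (4 / 3) ^ j := by linarith
    have hpw : (1 / 2 : ℝ) ^ j ≤ 1 := pow_le_one₀ (by norm_num) (by norm_num)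
    have e1 : l₀ * (4 / 3) ^ (j + 1) = 4 * (l₀ * (4 / 3) ^ j) / 3 := by ring
    constructor
    · rw [e1]; push_cast; linarith
    · have h3 := KA_stepY havoid D hll (by linarith) h2
      have h4 := KA_stepZ havoid D hll (by have := Real.exp_pos (-(l₀ * (4 / 3) ^ j)); linarith) h3
      rw [e1]
      refine KA_mono ?_ h4
      have h5 : Real.exp (-(l₀ * (4 / 3) ^ j)) ≤ (1 / 2) ^ (j + 1) := by
        have h6 : Real.exp (-(l₀ * (4 / 3) ^ j)) ≤ Real.exp (-((j : ℝ) + 1)) :=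
          Real.exp_le_exp.2 (by linarith)
        have h7 : Real.exp (-((j : ℝ) + 1)) = Real.exp (-1) ^ (j + 1) := by
          rw [← Real.exp_nat_mul]; congr 1; push_cast; ring
        have h8 : Real.exp (-1) ≤ 1 / 2 := by
          rw [Real.exp_neg, one_div]
          exact inv_anti₀ (by norm_num) (by have := Real.add_one_le_exp (1 : ℝ); linarith)
        rw [h7] at h6
        exact h6.trans (pow_le_pow_left₀ (Real.exp_pos _).le h8 _)
      have h9 : (1 / 2 : ℝ) ^ (j + 1) = (1 / 2) ^ j / 2 := by ring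
      rw [h9] at h5 ⊢
      linarith

end KA

theorem st_KA (havoid : ST_AVOID) : ST_KA := by
  intro Γ _ Q μ K hwk C₀ c C₁ l₁ hc
  obtain ⟨l₀, h3, hl1, hlC, herr⟩ := KA_scale Q K C₀ c (max C₁ 0) l₁ hwk.one_le hc
  refine ⟨(1 + K) / (c * c) * Real.exp (2 * max C₁ 0 * l₀) + 2, ?_⟩
  intro Ω z Y Z hgp hY hZ hlow u hu v hv
  have hstab : ∀ Y : Set Γ, Stab Q Ω z Y l₁ → Stab Q Ω z Y l₀ := fun Y h l hl => h l (hl1.trans hl)
  have D : KA_D Q μ K C₀ c (max C₁ 0) l₀ Ω z Y Z := by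
    refine ⟨hwk, hc, le_max_right _ _, h3, hlC, herr, hgp, hstab Y hY, hstab Z hZ, ?_⟩
    intro u hu v hv h
    obtain ⟨h1, h2⟩ := hlow u hu v hv h
    have key : ∀ t : ℝ, 0 ≤ t → c * Real.exp (-(max C₁ 0) * t) ≤ c * Real.exp (-C₁ * t) := by
      intro t ht
      refine mul_le_mul_of_nonneg_left (Real.exp_le_exp.2 ?_) hc.le
      have := mul_le_mul_of_nonneg_right (le_max_left C₁ 0) ht
      linarith
    exact ⟨(ENNReal.ofReal_le_ofReal (key _ (Q.d_nonneg _ _))).trans h1,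
      (ENNReal.ofReal_le_ofReal (key _ (Q.d_nonneg _ _))).trans h2⟩
  obtain ⟨j, hj⟩ := exists_nat_ge (max (Q.d z u) (Q.d z v))
  obtain ⟨h4, h5⟩ := KA_all havoid D j
  have h6 : max (Q.d z u) (Q.d z v) ≤ l₀ * (4 / 3) ^ j := by linarith
  have h7 := h5 u hu v hv ((le_max_left _ _).trans h6) ((le_max_right _ _).trans h6)
  refine h7.trans ?_
  have h8 : (0 : ℝ) ≤ (1 / 2) ^ j := by positivity
  gcongr
  linarith

end Pool.Agent.Helper12.GM
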